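import Pool.Agent.H42T.Final

/-!
Two-sided bounds for the optimal weak competitive ratio of online transportation, for all capacity
vectors and all metric spaces, in terms of the largest tight set of sites.

The problem is defined in `Pool/Agent/Helper84/TransportDefs.lean`, the number `tightNumber a c` in
`Pool/Agent/H42T/Final.lean`.
-/

namespace Pool.Agent.Results.MP_ed2ca9_lc.GeneralVectors

open Pool.Agent.Helper84.Transport Pool.Agent.H42T

/-- Let `N = tightNumber a c` be the largest size of a set `S` of sites with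
`2 * ∑ i ∈ S, (c i - a i) ≤ a j` for all `j ∈ S`. Then
`H_N ≤ R*(a, c) ≤ min (max_i 2 c_i / (c_i - a_i)) (1000 (N + 1) (1 + log (N + 1)))`. -/
theorem result {m : ℕ} (hm : 0 < m) (a c : Fin m → ℕ) (hac : ∀ i, a i < c i) :
    ENNReal.ofReal (harmonic (tightNumber a c) : ℝ) ≤ Rstar a c ∧
    Rstar a c ≤ min (⨆ i, ENNReal.ofReal (2 * (c i : ℝ) / ((c i : ℝ) - a i)))
      (ENNReal.ofReal
        (1000 * ((tightNumber a c : ℝ) + 1) * (1 + Real.log ((tightNumber a c : ℝ) + 1)))) := by
  refine ⟨lower a c hac, le_min ?_ (upper hm a c hac)⟩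
  have : Nonempty (Fin m) := ⟨⟨0, hm⟩⟩
  obtain ⟨i0, hi0⟩ := Finite.exists_max fun i => (c i : ℝ) / ((c i : ℝ) - a i)
  refine le_iSup_of_le i0 ?_
  have h := Pool.Agent.Helper80.RM.rstar_le hm a c ((c i0 : ℝ) / ((c i0 : ℝ) - a i0)) hac
    fun i => by
      have h1 : (0 : ℝ) < (c i : ℝ) - a i := sub_pos.2 (by exact_mod_cast hac i)
      exact (div_le_iff₀ h1).1 (hi0 i)
  rwa [← mul_div_assoc] at h

end Pool.Agent.Results.MP_ed2ca9_lc.GeneralVectors
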