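import Pool.Agent.Helper84.TransportProof

/-!
A lower bound for the optimal weak competitive ratio of online transportation, for general
capacity vectors; in particular it is unbounded when there is one extra server per site.

The problem is defined in `Pool/Agent/Helper84/TransportDefs.lean`.
-/

namespace Pool.Agent.Results.MP_ed2ca9_lc.HarmonicLowerBound

open Pool.Agent.Helper84.Transport

/-- For every set `S` of sites and every `0 < T` with `T ≤ a i` for `i ∈ S`,
`R*(a, c) ≥ 1 + 2 (1 - (∑ i ∈ S, (c i - a i)) / T) (H_{|S|} - 1)`.  For `c i = a i + 1`, all sites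
and `T = min a i → ∞` the right-hand side tends to `2 H_m - 1`. -/
theorem result {m : ℕ} (a c : Fin m → ℕ) (S : Finset (Fin m)) (T : ℕ) (hT0 : 0 < T)
    (hT : ∀ i ∈ S, T ≤ a i) :
    ENNReal.ofReal
        (1 + 2 * (1 - (∑ i ∈ S, ((c i : ℝ) - a i)) / T) * ((harmonic S.card : ℝ) - 1)) ≤
      Rstar a c :=
  main a c S T hT0 hT

end Pool.Agent.Results.MP_ed2ca9_lc.HarmonicLowerBound
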