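import Pool.Agent.Helper8.OT.Final

/-!
A polylogarithmic upper bound for the optimal weak competitive ratio of online transportation with
(at least) one extra server per site, for all capacity vectors and all metric spaces.

The problem is defined in `Pool/Agent/Helper84/TransportDefs.lean`.
-/

namespace Pool.Agent.Results.MP_ed2ca9_lc.PolylogUpperBound

open Pool.Agent.Helper84.Transport

/-- For all capacity vectors with `a i < c i` for all `i`, the optimal weak competitive ratio of
deterministic algorithms is at most `400000 * (1 + log m) ^ 6`. -/
theorem result (m : ℕ) (hm : 0 < m) (a c : Fin m → ℕ) (hac : ∀ i, a i < c i) :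
    Rstar a c ≤ ENNReal.ofReal (400000 * (1 + Real.log m) ^ 6) :=
  Pool.Agent.Helper8.OT.rstar_le_polylog m hm a c hac

end Pool.Agent.Results.MP_ed2ca9_lc.PolylogUpperBound
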