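import Pool.Agent.H42V.One

/-!
The order of the optimal weak competitive ratio of online transportation on ultrametric spaces, and
on all metric spaces at distortion at most `D` from an ultrametric, for all capacity vectors.

The online transportation problem (`OnlineAlgorithm`, `opt`) is defined in
`Pool/Agent/Helper84/TransportDefs.lean`, the optimal ratio on a class of metric spaces (`RstarOn`)
and the class `NearUlt D σ` in `Pool/Agent/Helper49/UM/ResDefs.lean`, tight sets (`Tight`) and the
number `tightNumber a c` in `Pool/Agent/H42T/Final.lean`.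
-/

namespace Pool.Agent.Results.MP_ed2ca9_lc.UltrametricVectors

open Pool.Agent.Helper84.Transport Pool.Agent.Helper49.UM Pool.Agent.H42T

/-- Let `N = tightNumber a c` be the largest number of sites in a tight set. On the spaces at
distortion at most `D` from an ultrametric (whose values are separated by `σ`; no condition for
`σ ≤ 1`) the optimal ratio is at most `D (705 + 128 log (N + 1))` and at least `H_N / 2`; it is at
least `H_N` if `2 ≤ D`, and at least 1 if some `a i` is positive. -/
theorem result {m : ℕ} (hm : 0 < m) (a c : Fin m → ℕ) (hac : ∀ i, a i < c i) (D σ : ℝ)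
    (hD : 1 ≤ D) :
    RstarOn (NearUlt D σ) a c ≤
        ENNReal.ofReal (D * (705 + 128 * Real.log ((tightNumber a c : ℝ) + 1))) ∧
      ENNReal.ofReal ((harmonic (tightNumber a c) : ℝ) / 2) ≤ RstarOn (NearUlt D σ) a c ∧
      (2 ≤ D → ENNReal.ofReal (harmonic (tightNumber a c) : ℝ) ≤ RstarOn (NearUlt D σ) a c) ∧
      ((∃ i, 0 < a i) → 1 ≤ RstarOn (NearUlt D σ) a c) :=
  ⟨Pool.Agent.H42V.upper_ult hm a c hac D σ hD, Pool.Agent.H42V.lower_all a c hac D σ hD,
    Pool.Agent.H42U.lower_ult a c hac D σ,
    fun ⟨i, hi⟩ => Pool.Agent.H42V.one_le a c i hi D σ hD⟩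

end Pool.Agent.Results.MP_ed2ca9_lc.UltrametricVectors
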